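import Pool.Agent.H49.G.R_seed8.Y957.VK.Stm

/-!
# The bound for zeta sums
-/

set_option autoImplicit false

namespace Pool.Agent.Y824.VK

open Finset Filter Pool.Agent.Y957.VK

/-- the bound for zeta sums -/
theorem zs (h1 : S_SHIFT) (h2 : S_TN) : S_ZS := by
  obtain ⟨C, c, hc0, hc1, hT⟩ := h2
  refine ⟨C + 3, c, hc0, hc1, fun N N' t κ hN hNN hN2 hκ ht => ?_⟩
  have hN1 : (1 : ℝ) ≤ N := by exact_mod_cast (by omega : 1 ≤ N)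
  have hNp : (0 : ℝ) < N := by linarith
  obtain ⟨x, hx⟩ : ∃ x : ℝ, x = (N : ℝ) ^ (2 / 5 : ℝ) := ⟨_, rfl⟩
  have hx1 : 1 ≤ x := by
    rw [hx]
    exact Real.one_le_rpow hN1 (by norm_num)
  obtain ⟨M, hM⟩ : ∃ M : ℕ, M = ⌊(N : ℝ) ^ (2 / 5 : ℝ)⌋₊ := ⟨_, rfl⟩
  rw [← hx] at hM
  have hM1 : 1 ≤ M := by
    rw [hM]
    exact Nat.le_floor (by simpa using hx1)
  have hM1' : (1 : ℝ) ≤ M := by exact_mod_cast hM1
  have hMx : (M : ℝ) ≤ x := by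
    rw [hM]
    exact Nat.floor_le (by linarith)
  have hM2 : (M : ℝ) ^ 2 ≤ (N : ℝ) ^ (4 / 5 : ℝ) := by
    calc (M : ℝ) ^ 2 ≤ x ^ 2 := pow_le_pow_left₀ (by positivity) hMx 2
      _ = (N : ℝ) ^ (4 / 5 : ℝ) := by
        rw [hx, ← Real.rpow_natCast, ← Real.rpow_mul hNp.le]
        norm_num
  have hMN : M ^ 2 ≤ N := by
    have h3 : ((M ^ 2 : ℕ) : ℝ) ≤ N := by
      push_cast
      calc (M : ℝ) ^ 2 ≤ (N : ℝ) ^ (4 / 5 : ℝ) := hM2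
        _ ≤ (N : ℝ) ^ (1 : ℝ) := Real.rpow_le_rpow_of_exponent_le hN1 (by norm_num)
        _ = N := Real.rpow_one _
    exact_mod_cast h3
  obtain ⟨r, hr⟩ : ∃ r : ℕ, r = ⌈5 * κ⌉₊ + 5 := ⟨_, rfl⟩
  have hr5 : 5 * κ + 5 ≤ (r : ℝ) := by
    rw [hr]
    push_cast
    linarith [Nat.le_ceil (5 * κ)]
  obtain ⟨η, hη⟩ : ∃ η : ℝ, η = c / (1 + κ) ^ 2 := ⟨_, rfl⟩
  obtain ⟨E, hE⟩ : ∃ E : ℝ, E = Real.exp (C * (1 + κ) ^ C) := ⟨_, rfl⟩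
  have hE0 : 0 < E := by rw [hE]; exact Real.exp_pos _
  have hκ1 : 1 ≤ 1 + κ := by linarith
  have hη1 : η ≤ 1 / 10 := by
    rw [hη]
    refine le_trans (div_le_self hc0.le ?_) hc1
    exact one_le_pow₀ hκ1
  have hmain := h1 N N' M r t (by omega) hNN hN2 hM1 hMN (by omega)
  -- the first term
  have hTn : ∀ n ∈ Ioc N N', ‖TT r M (al t n)‖ ≤ E * (M : ℝ) ^ 2 * (N : ℝ) ^ (-η) := by
    intro n hn
    rw [Finset.mem_Ioc] at hn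
    have h3 := hT N n t κ hN (Finset.mem_Icc.2 ⟨by omega, by omega⟩) hκ ht
    rw [← hr, ← hx, ← hM, ← hE, ← hη] at h3
    exact h3
  have hsum : ∑ n ∈ Ioc N N', ‖TT r M (al t n)‖ ≤
      (N : ℝ) * (E * (M : ℝ) ^ 2 * (N : ℝ) ^ (-η)) := by
    refine (Finset.sum_le_sum hTn).trans ?_
    rw [Finset.sum_const, Nat.card_Ioc, nsmul_eq_mul]
    refine mul_le_mul_of_nonneg_right ?_ (by positivity)
    exact_mod_cast (by omega : N' - N ≤ N)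
  have hpow : (N : ℝ) ^ (1 - η) = N * (N : ℝ) ^ (-η) := by
    rw [sub_eq_add_neg, Real.rpow_add hNp, Real.rpow_one]
  have t1 : 1 / (M : ℝ) ^ 2 * ∑ n ∈ Ioc N N', ‖TT r M (al t n)‖ ≤ E * (N : ℝ) ^ (1 - η) := by
    calc 1 / (M : ℝ) ^ 2 * ∑ n ∈ Ioc N N', ‖TT r M (al t n)‖
        ≤ 1 / (M : ℝ) ^ 2 * ((N : ℝ) * (E * (M : ℝ) ^ 2 * (N : ℝ) ^ (-η))) :=
          mul_le_mul_of_nonneg_left hsum (by positivity)
      _ = E * (N : ℝ) ^ (1 - η) := by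
        rw [hpow]
        field_simp
  -- the second term
  have t2 : 2 * (M : ℝ) ^ 2 ≤ 2 * (N : ℝ) ^ (1 - η) := by
    refine mul_le_mul_of_nonneg_left (hM2.trans ?_) (by norm_num)
    exact Real.rpow_le_rpow_of_exponent_le hN1 (by linarith)
  -- the third term
  have h5 : (M : ℝ) ^ 2 / N ≤ (N : ℝ) ^ (-(1 / 5) : ℝ) := by
    rw [div_le_iff₀ hNp]
    refine hM2.trans (le_of_eq ?_)
    conv_rhs => rw [← Real.rpow_one (N : ℝ), ← Real.rpow_mul hNp.le, one_mul, ← Real.rpow_add hNp]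
    norm_num
  have t3 : N * |t| * ((M : ℝ) ^ 2 / N) ^ (r + 1) ≤ 1 := by
    have h6 : ((M : ℝ) ^ 2 / N) ^ (r + 1) ≤ (N : ℝ) ^ (-(κ + 6 / 5)) := by
      calc ((M : ℝ) ^ 2 / N) ^ (r + 1) ≤ ((N : ℝ) ^ (-(1 / 5) : ℝ)) ^ (r + 1) :=
            pow_le_pow_left₀ (by positivity) h5 _
        _ = (N : ℝ) ^ (-(1 / 5) * ((r : ℝ) + 1)) := by
          rw [← Real.rpow_natCast, ← Real.rpow_mul hNp.le]
          push_cast
          ring_nf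
        _ ≤ (N : ℝ) ^ (-(κ + 6 / 5)) :=
          Real.rpow_le_rpow_of_exponent_le hN1 (by linarith)
    calc N * |t| * ((M : ℝ) ^ 2 / N) ^ (r + 1) ≤ N * |t| * (N : ℝ) ^ (-(κ + 6 / 5)) :=
          mul_le_mul_of_nonneg_left h6 (by positivity)
      _ = (N : ℝ) ^ (1 + κ + -(κ + 6 / 5)) := by
        rw [ht, Real.rpow_add hNp, Real.rpow_add hNp, Real.rpow_one]
      _ ≤ 1 := Real.rpow_le_one_of_one_le_of_nonpos hN1 (by linarith)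
  have t4 : (1 : ℝ) ≤ (N : ℝ) ^ (1 - η) := Real.one_le_rpow hN1 (by linarith)
  -- the constants
  have hC : E + 3 ≤ Real.exp (((C + 3 : ℕ) : ℝ) * (1 + κ) ^ (C + 3)) := by
    have h7 : (1 + κ) ^ C ≤ (1 + κ) ^ (C + 3) := pow_le_pow_right₀ hκ1 (by omega)
    have h8 : 1 ≤ (1 + κ) ^ (C + 3) := one_le_pow₀ hκ1
    have h9 : (C : ℝ) * (1 + κ) ^ C + 3 ≤ ((C + 3 : ℕ) : ℝ) * (1 + κ) ^ (C + 3) := by
      push_cast
      have h10 := mul_le_mul_of_nonneg_left h7 (Nat.cast_nonneg C : (0 : ℝ) ≤ C)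
      linarith
    refine le_trans ?_ (Real.exp_le_exp.2 h9)
    rw [Real.exp_add, ← hE]
    have h11 : (3 : ℝ) + 1 ≤ Real.exp 3 := Real.add_one_le_exp 3
    have h12 : 1 ≤ E := by
      rw [hE]
      exact Real.one_le_exp (by positivity)
    nlinarith
  rw [← hη]
  calc ‖∑ n ∈ Ioc N N', (n : ℂ) ^ (-(t : ℂ) * Complex.I)‖
      ≤ E * (N : ℝ) ^ (1 - η) + 2 * (N : ℝ) ^ (1 - η) + 1 :=
        hmain.trans (add_le_add (add_le_add t1 t2) t3)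
    _ ≤ (E + 3) * (N : ℝ) ^ (1 - η) := by linarith
    _ ≤ _ := mul_le_mul_of_nonneg_right hC (by positivity)

end Pool.Agent.Y824.VK
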